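import Pool.Agent.H.MP_676d90_ag.Defs

set_option autoImplicit false
open MvPolynomial Module

namespace Pool.Agent.H.MP_676d90_ag
variable {n : ℕ}

noncomputable abbrev R (n d : ℕ) := homogeneousSubmodule (Fin (n + 1)) ℂ d

theorem dg {f : S n} {k : ℕ} (h : f.IsHomogeneous k) {s : Fin (n + 1) →₀ ℕ} (hs : coeff s f ≠ 0) :
    s.degree = k := by
  rw [Finsupp.degree_eq_weight_one]; exact h hs

theorem fr (n d : ℕ) : finrank ℂ (R n d) = (n + d).choose d := by
  classical
  have e : R n d = Submodule.span ℂ (Set.range fun s :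
      (Finset.univ : Finset (Fin (n + 1))).finsuppAntidiag d => (monomial s.1 (1 : ℂ) : S n)) := by
    refine le_antisymm (fun F hF => ?_) (Submodule.span_le.mpr ?_)
    · rw [F.as_sum]
      refine Submodule.sum_mem _ fun s hs => ?_
      rw [← mul_one (coeff s F), ← smul_eq_mul, ← smul_monomial]
      refine Submodule.smul_mem _ _ (Submodule.subset_span ⟨⟨s, ?_⟩, rfl⟩)
      simpa [Finsupp.degree_eq_sum] using dg hF (mem_support_iff.mp hs)
    · rintro _ ⟨⟨s, hs⟩, rfl⟩
      refine isHomogeneous_monomial _ ?_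
      simpa [Finsupp.degree_eq_sum] using hs
  have li : LinearIndependent ℂ fun s : (Finset.univ : Finset (Fin (n + 1))).finsuppAntidiag d =>
      (monomial s.1 (1 : ℂ) : S n) :=
    (basisMonomials (Fin (n + 1)) ℂ).linearIndependent.comp _ Subtype.val_injective
  rw [e, finrank_span_eq_card li, Fintype.card_coe, Finset.card_finsuppAntidiag_nat_eq_choose]
  simp only [Finset.card_univ, Fintype.card_fin]
  congr 1; omega

instance (n d : ℕ) : Module.Finite ℂ (R n d) :=
  Module.Finite.iff_fg.mpr (homogeneousSubmodule_fg (Fin (n + 1)) ℂ d)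

theorem rk {V W : Type} [AddCommGroup V] [Module ℂ V] [AddCommGroup W] [Module ℂ W]
    (p : Submodule ℂ V) [Module.Finite ℂ p] (f : V →ₗ[ℂ] W) :
    finrank ℂ (p.map f) + finrank ℂ ↥(p ⊓ LinearMap.ker f) = finrank ℂ p := by
  rw [← LinearMap.range_domRestrict, ← (f.domRestrict p).finrank_range_add_finrank_ker,
    LinearMap.ker_domRestrict, ← Submodule.map_comap_subtype, Submodule.finrank_map_subtype_eq]

noncomputable abbrev K (I : Ideal (S n)) (d : ℕ) : Submodule ℂ (S n) :=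
  R n d ⊓ LinearMap.ker (Ideal.Quotient.mkₐ ℂ I).toLinearMap

theorem memK {I : Ideal (S n)} {d : ℕ} {f : S n} : f ∈ K I d ↔ f.IsHomogeneous d ∧ f ∈ I := by
  simp [K, Ideal.Quotient.eq_zero_iff_mem]

instance (I : Ideal (S n)) (d : ℕ) : Module.Finite ℂ (K I d) :=
  Submodule.finiteDimensional_inf_left _ _

theorem hfK (I : Ideal (S n)) (d : ℕ) : hf I d + finrank ℂ (K I d) = (n + d).choose d := by
  rw [← fr]; exact rk _ _

theorem low {I : Ideal (S n)} {d : ℕ} {ι : Type} [Fintype ι] (g : ι → S n)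
    (hg : ∀ i, (g i).IsHomogeneous d) (h : ∀ c : ι → ℂ, ∑ i, c i • g i ∈ I → ∀ i, c i = 0) :
    Fintype.card ι ≤ hf I d := by
  let q := (Ideal.Quotient.mkₐ ℂ I).toLinearMap
  have : Module.Finite ℂ ((R n d).map q) := inferInstance
  have li : LinearIndependent ℂ fun i => (⟨q (g i), Submodule.mem_map_of_mem (hg i)⟩ : (R n d).map q) := by
    rw [Fintype.linearIndependent_iff]
    intro c hc
    refine h c (Ideal.Quotient.eq_zero_iff_mem.mp ?_)
    have := congrArg Subtype.val hc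
    simp only [Submodule.coe_sum, Submodule.coe_smul, Submodule.coe_zero] at this
    have e : q (∑ i, c i • g i) = 0 := by rw [map_sum]; simpa using this
    exact e
  exact li.fintype_card_le_finrank

theorem up {I : Ideal (S n)} {d : ℕ} {ι : Type} [Fintype ι] (g : ι → S n)
    (hg : ∀ i, (g i).IsHomogeneous d) (hI : ∀ i, g i ∈ I)
    (h : ∀ c : ι → ℂ, ∑ i, c i • g i = 0 → ∀ i, c i = 0) :
    hf I d + Fintype.card ι ≤ (n + d).choose d := by
  have li : LinearIndependent ℂ fun i => (⟨g i, memK.mpr ⟨hg i, hI i⟩⟩ : K I d) := by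
    rw [Fintype.linearIndependent_iff]
    intro c hc
    refine h c ?_
    have := congrArg Subtype.val hc
    simpa only [Submodule.coe_sum, Submodule.coe_smul, Submodule.coe_zero] using this
  have := li.fintype_card_le_finrank
  have := hfK I d
  omega

theorem ex {I : Ideal (S n)} {d : ℕ} (h : hf I d < (n + d).choose d) :
    ∃ F : S n, F ≠ 0 ∧ F.IsHomogeneous d ∧ F ∈ I := by
  by_contra hn
  have : K I d = ⊥ := (Submodule.eq_bot_iff _).mpr fun f hf => by
    by_contra h0; exact hn ⟨f, h0, memK.mp hf⟩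
  have e := hfK I d
  rw [this, finrank_bot] at e
  omega

theorem dep {I : Ideal (S n)} {d : ℕ} {ι : Type} [Fintype ι] (g : ι → S n)
    (hg : ∀ i, (g i).IsHomogeneous d) (hI : ∀ i, g i ∈ I)
    (h : (n + d).choose d < hf I d + Fintype.card ι) :
    ∃ c : ι → ℂ, c ≠ 0 ∧ ∑ i, c i • g i = 0 := by
  by_contra hn
  have := up g hg hI fun c hc i => by
    by_contra h0; exact hn ⟨c, fun e => h0 (congrFun e i), hc⟩
  omega

theorem ev_smul {f : S n} {d : ℕ} (hf : f.IsHomogeneous d) (a : ℂ) (v : Fin (n + 1) → ℂ) :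
    eval (a • v) f = a ^ d * eval v f := by
  rw [eval_eq', eval_eq', Finset.mul_sum]
  refine Finset.sum_congr rfl fun s hs => ?_
  rw [← dg hf (mem_support_iff.mp hs), Finsupp.degree_eq_sum]
  simp [mul_pow, Finset.prod_mul_distrib, Finset.prod_pow_eq_pow_sum]; ring

theorem mem_pr {P : PP n} {f : S n} : f ∈ pr P ↔ ∀ v ∈ P.submodule, eval v f = 0 := by
  simp [pr, mem_vanishingIdeal_iff, aeval_eq_eval]

theorem mem_pr' {P : PP n} {f : S n} {d : ℕ} (hf : f.IsHomogeneous d) {v : Fin (n + 1) → ℂ}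
    (hv : v ≠ 0) (hP : v ∈ P.submodule) (h : eval v f = 0) : f ∈ pr P := by
  rw [mem_pr]
  intro w hw
  rw [Projectivization.submodule_eq, Submodule.mem_span_singleton] at hP hw
  obtain ⟨a, rfl⟩ := hP
  obtain ⟨b, rfl⟩ := hw
  rw [ev_smul hf] at h ⊢
  have ha : a ≠ 0 := by rintro rfl; simp at hv
  rw [(mul_eq_zero.mp h).resolve_left (pow_ne_zero _ ha), mul_zero]

theorem rep_mem (P : PP n) : P.rep ∈ P.submodule := by
  rw [Projectivization.submodule_eq]; exact Submodule.mem_span_singleton_self _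

theorem eq_of_mem {P Q : PP n} {v : Fin (n + 1) → ℂ} (hv : v ≠ 0) (hP : v ∈ P.submodule)
    (hQ : v ∈ Q.submodule) : P = Q := by
  have k : ∀ P : PP n, v ∈ P.submodule → P = Projectivization.mk ℂ v hv := fun P hP => by
    rw [Projectivization.submodule_eq, Submodule.mem_span_singleton] at hP
    obtain ⟨a, ha⟩ := hP
    rw [← P.mk_rep, eq_comm, Projectivization.mk_eq_mk_iff']
    exact ⟨a, ha⟩
  rw [k P hP, k Q hQ]

theorem memI {Y : Finset (PP n)} {J : PP n → Ideal (S n)} {f : S n} :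
    f ∈ (⨅ P ∈ Y, J P) ↔ ∀ P ∈ Y, f ∈ J P := by simp

theorem upY (Y : Finset (PP n)) (d : ℕ) : H1 Y d ≤ Y.card := by
  let ev : S n →ₗ[ℂ] (Y → ℂ) := LinearMap.pi fun P => (aeval P.1.rep).toLinearMap
  have h1 := rk (R n d) ev
  have h2 := hfK (⨅ P ∈ Y, pr P) d
  have h3 : finrank ℂ ((R n d).map ev) ≤ Y.card := by
    simpa using ((R n d).map ev).finrank_le
  have h4 : R n d ⊓ LinearMap.ker ev ≤ K (⨅ P ∈ Y, pr P) d := fun f hf => by
    refine memK.mpr ⟨hf.1, memI.mpr fun P hP => mem_pr' hf.1 P.rep_nonzero (rep_mem P) ?_⟩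
    simpa [ev, aeval_eq_eval] using congrFun hf.2 ⟨P, hP⟩
  have h5 : finrank ℂ ↥(R n d ⊓ LinearMap.ker ev) ≤ finrank ℂ (K (⨅ P ∈ Y, pr P) d) :=
    Submodule.finrank_mono h4
  rw [fr] at h1
  unfold H1; omega

open TrivSqZeroExt in
/-- first order deformation of a vector -/
noncomputable def dn (v h : Fin (n + 1) → ℂ) : Fin (n + 1) → DualNumber ℂ :=
  fun i => inl (v i) + inr (h i)

/-- derivative of `f` at `v` in direction `h` -/
noncomputable def D (v h : Fin (n + 1) → ℂ) (f : S n) : ℂ := (aeval (dn v h) f).snd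

theorem fst_dn (v h : Fin (n + 1) → ℂ) (f : S n) : (aeval (dn v h) f).fst = eval v f := by
  induction f using MvPolynomial.induction_on with
  | C a => simp [TrivSqZeroExt.algebraMap_eq_inl]
  | add p q hp hq => simp [hp, hq]
  | mul_X p i hp => simp [hp, dn]

@[simp] theorem D_mul (v h : Fin (n + 1) → ℂ) (f g : S n) :
    D v h (f * g) = eval v f * D v h g + D v h f * eval v g := by
  simp [D, fst_dn, mul_comm]
@[simp] theorem D_add (v h : Fin (n + 1) → ℂ) (f g : S n) : D v h (f + g) = D v h f + D v h g := by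
  simp [D]
@[simp] theorem D_sub (v h : Fin (n + 1) → ℂ) (f g : S n) : D v h (f - g) = D v h f - D v h g := by
  simp [D]
@[simp] theorem D_C (v h : Fin (n + 1) → ℂ) (a : ℂ) : D v h (C a) = 0 := by
  simp [D, TrivSqZeroExt.algebraMap_eq_inl]
@[simp] theorem D_zero (v h : Fin (n + 1) → ℂ) : D v h 0 = 0 := by simp [D]
@[simp] theorem D_one (v h : Fin (n + 1) → ℂ) : D v h 1 = 0 := by simp [D]
@[simp] theorem D_X (v h : Fin (n + 1) → ℂ) (i : Fin (n + 1)) : D v h (X i) = h i := by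
  simp [D, dn]
@[simp] theorem D_smul (v h : Fin (n + 1) → ℂ) (a : ℂ) (f : S n) : D v h (a • f) = a * D v h f := by
  simp [D]
theorem D_sum (v h : Fin (n + 1) → ℂ) {ι : Type} (s : Finset ι) (f : ι → S n) :
    D v h (∑ i ∈ s, f i) = ∑ i ∈ s, D v h (f i) := by
  simp [D, TrivSqZeroExt.snd_sum]
theorem D_pow (v h : Fin (n + 1) → ℂ) (f : S n) (k : ℕ) :
    D v h (f ^ k) = k * eval v f ^ (k - 1) * D v h f := by
  induction k with
  | zero => simp
  | succ k ih =>
    rw [pow_succ, D_mul, ih]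
    cases k <;> simp [pow_succ]
    ring

theorem D_eq (v h : Fin (n + 1) → ℂ) (f : S n) : D v h f = eval v (∑ j, h j • pderiv j f) := by
  induction f using MvPolynomial.induction_on with
  | C a => simp
  | add p q hp hq => simp [hp, hq, Finset.sum_add_distrib]
  | mul_X p i hp =>
    rw [D_mul, hp]
    simp [pderiv_X, Pi.single_apply, Finset.sum_add_distrib, mul_comm,
      mul_left_comm, Finset.mul_sum]

theorem D_sq {P : PP n} {f : S n} (hf : f ∈ pr P ^ 2) {v : Fin (n + 1) → ℂ} (hv : v ∈ P.submodule)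
    (h : Fin (n + 1) → ℂ) : D v h f = 0 := by
  rw [pow_two] at hf
  refine Submodule.mul_induction_on hf (fun a ha b hb => ?_) fun a b ha hb => by simp [ha, hb]
  simp [mem_pr.mp ha v hv, mem_pr.mp hb v hv]

theorem pd_mem {P : PP n} {f : S n} (hf : f ∈ pr P ^ 2) (j : Fin (n + 1)) : pderiv j f ∈ pr P := by
  rw [mem_pr]
  intro v hv
  have := D_sq hf hv (Pi.single j 1)
  rw [D_eq] at this
  simpa [Pi.single_apply] using this

/-- linear form attached to a functional -/
noncomputable def lf (φ : (Fin (n + 1) → ℂ) →ₗ[ℂ] ℂ) : S n := ∑ j, φ (Pi.single j 1) • X j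

theorem lf_hom (φ : (Fin (n + 1) → ℂ) →ₗ[ℂ] ℂ) : (lf φ).IsHomogeneous 1 :=
  Submodule.sum_mem (R n 1) fun j _ => Submodule.smul_mem _ _ (isHomogeneous_X ℂ j)

theorem phi_eq (φ : (Fin (n + 1) → ℂ) →ₗ[ℂ] ℂ) (v : Fin (n + 1) → ℂ) :
    ∑ j, φ (Pi.single j 1) * v j = φ v := by
  conv_rhs => rw [pi_eq_sum_univ' v, map_sum]
  refine Finset.sum_congr rfl fun j _ => ?_
  rw [map_smul, smul_eq_mul, mul_comm]

@[simp] theorem ev_lf (φ : (Fin (n + 1) → ℂ) →ₗ[ℂ] ℂ) (v : Fin (n + 1) → ℂ) :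
    eval v (lf φ) = φ v := by
  simp [lf, phi_eq]

@[simp] theorem D_lf (φ : (Fin (n + 1) → ℂ) →ₗ[ℂ] ℂ) (v h : Fin (n + 1) → ℂ) :
    D v h (lf φ) = φ h := by
  simp [lf, D_sum, phi_eq]

/-- substitution of a linear map -/
noncomputable def sub (T : (Fin (n + 1) → ℂ) →ₗ[ℂ] (Fin (n + 1) → ℂ)) : S n →ₐ[ℂ] S n :=
  aeval fun i => lf ((LinearMap.proj i).comp T)

theorem sub_hom (T : (Fin (n + 1) → ℂ) →ₗ[ℂ] (Fin (n + 1) → ℂ)) {f : S n} {d : ℕ}
    (hf : f.IsHomogeneous d) : (sub T f).IsHomogeneous d := by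
  have := hf.aeval (fun i => lf ((LinearMap.proj i).comp T)) fun i => lf_hom _
  rwa [one_mul] at this

theorem ev_sub (T : (Fin (n + 1) → ℂ) →ₗ[ℂ] (Fin (n + 1) → ℂ)) (f : S n) (v : Fin (n + 1) → ℂ) :
    eval v (sub T f) = eval (T v) f := by
  induction f using MvPolynomial.induction_on with
  | C a => simp [sub]
  | add p q hp hq => simp [hp, hq]
  | mul_X p i hp => rw [map_mul, map_mul, map_mul, hp]; simp [sub]

theorem D_subs (T : (Fin (n + 1) → ℂ) →ₗ[ℂ] (Fin (n + 1) → ℂ)) (f : S n) (v h : Fin (n + 1) → ℂ) :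
    D v h (sub T f) = D (T v) (T h) f := by
  induction f using MvPolynomial.induction_on with
  | C a => simp [sub]
  | add p q hp hq => simp [hp, hq]
  | mul_X p i hp => rw [map_mul, D_mul, D_mul, hp, ev_sub, ev_sub]; simp [sub]

theorem zero_of_ev {f : S n} (h : ∀ v, eval v f = 0) : f = 0 :=
  MvPolynomial.funext fun v => by simp [h v]

end Pool.Agent.H.MP_676d90_ag
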