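import Pool.Agent.H.MP_676d90_ag.A

set_option autoImplicit false
open MvPolynomial Module

namespace Pool.Agent.H.MP_676d90_ag

abbrev V := Fin (3 + 1) → ℂ

def tab : Fin 25 → ℕ × ℕ × ℕ × ℕ := ![(0,0,0,4), (1,0,0,3), (2,0,0,2), (3,0,0,1), (4,0,0,0), (0,1,0,3), (0,2,0,2), (0,3,0,1), (0,4,0,0), (0,0,1,3), (0,0,2,2), (0,0,3,1), (0,0,4,0), (2,1,0,1), (1,2,0,1), (3,1,0,0), (1,3,0,0), (2,0,1,1), (1,0,2,1), (3,0,1,0), (1,0,3,0), (0,2,1,1), (0,1,2,1), (0,3,1,0), (0,1,3,0)]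

noncomputable def mon (k : Fin 25) : S 3 :=
  X 0 ^ (tab k).1 * X 1 ^ (tab k).2.1 * X 2 ^ (tab k).2.2.1 * X 3 ^ (tab k).2.2.2

theorem mon_hom (k : Fin 25) : (mon k).IsHomogeneous 4 := by
  have e : ∀ k, 1 * (tab k).1 + 1 * (tab k).2.1 + 1 * (tab k).2.2.1 + 1 * (tab k).2.2.2 = 4 := by
    decide
  rw [← e k]
  exact ((((isHomogeneous_X ℂ _).pow _).mul ((isHomogeneous_X ℂ _).pow _)).mul
    ((isHomogeneous_X ℂ _).pow _)).mul ((isHomogeneous_X ℂ _).pow _)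

def E (c : Fin 25 → ℂ) (x y z w h0 h1 h2 h3 : ℂ) : ℂ :=
    c 0 * (4*w^3*h3) +
    c 1 * (1*w^3*h0 + 3*x^1*w^2*h3) +
    c 2 * (2*x^1*w^2*h0 + 2*x^2*w^1*h3) +
    c 3 * (3*x^2*w^1*h0 + 1*x^3*h3) +
    c 4 * (4*x^3*h0) +
    c 5 * (1*w^3*h1 + 3*y^1*w^2*h3) +
    c 6 * (2*y^1*w^2*h1 + 2*y^2*w^1*h3) +
    c 7 * (3*y^2*w^1*h1 + 1*y^3*h3) +
    c 8 * (4*y^3*h1) +
    c 9 * (1*w^3*h2 + 3*z^1*w^2*h3) +
    c 10 * (2*z^1*w^2*h2 + 2*z^2*w^1*h3) +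
    c 11 * (3*z^2*w^1*h2 + 1*z^3*h3) +
    c 12 * (4*z^3*h2) +
    c 13 * (2*x^1*y^1*w^1*h0 + 1*x^2*w^1*h1 + 1*x^2*y^1*h3) +
    c 14 * (1*y^2*w^1*h0 + 2*x^1*y^1*w^1*h1 + 1*x^1*y^2*h3) +
    c 15 * (3*x^2*y^1*h0 + 1*x^3*h1) +
    c 16 * (1*y^3*h0 + 3*x^1*y^2*h1) +
    c 17 * (2*x^1*z^1*w^1*h0 + 1*x^2*w^1*h2 + 1*x^2*z^1*h3) +
    c 18 * (1*z^2*w^1*h0 + 2*x^1*z^1*w^1*h2 + 1*x^1*z^2*h3) +
    c 19 * (3*x^2*z^1*h0 + 1*x^3*h2) +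
    c 20 * (1*z^3*h0 + 3*x^1*z^2*h2) +
    c 21 * (2*y^1*z^1*w^1*h1 + 1*y^2*w^1*h2 + 1*y^2*z^1*h3) +
    c 22 * (1*z^2*w^1*h1 + 2*y^1*z^1*w^1*h2 + 1*y^1*z^2*h3) +
    c 23 * (3*y^2*z^1*h1 + 1*y^3*h2) +
    c 24 * (1*z^3*h1 + 3*y^1*z^2*h2)

theorem Dg (c : Fin 25 → ℂ) (p h : V) :
    D p h (∑ k, c k • mon k) = E c (p 0) (p 1) (p 2) (p 3) (h 0) (h 1) (h 2) (h 3) := by
  rw [D_sum]
  simp [Fin.sum_univ_succ, mon, tab, D_pow, E]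
  ring

theorem cub {a b c d s t : ℂ} (hst : s ≠ t) (h1 : a * s ^ 3 + b * s ^ 2 + c * s + d = 0)
    (h2 : 3 * a * s ^ 2 + 2 * b * s + c = 0) (h3 : a * t ^ 3 + b * t ^ 2 + c * t + d = 0)
    (h4 : 3 * a * t ^ 2 + 2 * b * t + c = 0) : a = 0 ∧ b = 0 ∧ c = 0 ∧ d = 0 := by
  have hd : s - t ≠ 0 := sub_ne_zero.mpr hst
  have ha : a = 0 := by
    have : a * (s - t) ^ 3 = 0 := by linear_combination (s - t) * (h2 + h4) - 2 * (h1 - h3)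
    exact (mul_eq_zero.mp this).resolve_right (pow_ne_zero _ hd)
  have hb : b = 0 := by
    have : b * (s - t) = 0 := by rw [ha] at h2 h4; linear_combination (h2 - h4) / 2
    exact (mul_eq_zero.mp this).resolve_right hd
  have hc : c = 0 := by rw [ha, hb] at h2; linear_combination h2
  refine ⟨ha, hb, hc, ?_⟩
  rw [ha, hb, hc] at h1; linear_combination h1

theorem quar {A a b c d s t r : ℂ} (hst : s ≠ t) (hsr : s ≠ r) (htr : t ≠ r)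
    (H : ∀ u, u = s ∨ u = t ∨ u = r → A * u ^ 4 + a * u ^ 3 + b * u ^ 2 + c * u + d = 0 ∧
      4 * A * u ^ 3 + 3 * a * u ^ 2 + 2 * b * u + c = 0) : A = 0 := by
  have k : ∀ u v, u ≠ v → (u = s ∨ u = t ∨ u = r) → (v = s ∨ v = t ∨ v = r) →
      2 * A * (u + v) + a = 0 := fun u v huv hu hv => by
    obtain ⟨h1, h2⟩ := H u hu
    obtain ⟨h3, h4⟩ := H v hv
    have : (2 * A * (u + v) + a) * (u - v) ^ 3 = 0 := by
      linear_combination (u - v) * (h2 + h4) - 2 * (h1 - h3)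
    exact (mul_eq_zero.mp this).resolve_right (pow_ne_zero _ (sub_ne_zero.mpr huv))
  have e1 := k s t hst (by simp) (by simp)
  have e2 := k s r hsr (by simp) (by simp)
  have : A * (t - r) = 0 := by linear_combination (e1 - e2) / 2
  exact (mul_eq_zero.mp this).resolve_right (sub_ne_zero.mpr htr)

theorem lin {a b s t : ℂ} (hst : s ≠ t) (h1 : a * s + b = 0) (h2 : a * t + b = 0) : a = 0 ∧ b = 0 := by
  have ha : a = 0 := by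
    have : a * (s - t) = 0 := by linear_combination h1 - h2
    exact (mul_eq_zero.mp this).resolve_right (sub_ne_zero.mpr hst)
  refine ⟨ha, ?_⟩
  rw [ha] at h1; linear_combination h1

def vec : Option (Fin 3 × ℂ) → V
  | none => ![0, 0, 0, 1]
  | some (0, t) => ![1, 0, 0, t]
  | some (1, t) => ![0, 1, 0, t]
  | some (2, t) => ![0, 0, 1, t]

theorem vec_ne (o : Option (Fin 3 × ℂ)) : vec o ≠ 0 := by
  intro h
  rcases o with _ | ⟨i, t⟩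
  · simpa [vec] using congrFun h 3
  · fin_cases i
    · simpa [vec] using congrFun h 0
    · simpa [vec] using congrFun h 1
    · simpa [vec] using congrFun h 2

theorem core (Z : Set (Option (Fin 3 × ℂ)))
    (two : ∀ i, ∃ s t, s ≠ t ∧ some (i, s) ∈ Z ∧ some (i, t) ∈ Z)
    (three : none ∈ Z ∨ ∃ i s t r, s ≠ t ∧ s ≠ r ∧ t ≠ r ∧ some (i, s) ∈ Z ∧ some (i, t) ∈ Z ∧
      some (i, r) ∈ Z)
    (c : Fin 25 → ℂ) (H : ∀ o ∈ Z, ∀ h, D (vec o) h (∑ k, c k • mon k) = 0) : ∀ k, c k = 0 := by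
  simp only [Dg] at H
  have X0 : ∀ t, some ((0 : Fin 3), t) ∈ Z →
      (c 0 * t ^ 4 + c 1 * t ^ 3 + c 2 * t ^ 2 + c 3 * t + c 4 = 0 ∧
      4 * c 0 * t ^ 3 + 3 * c 1 * t ^ 2 + 2 * c 2 * t + c 3 = 0) ∧
      c 5 * t ^ 3 + c 13 * t + c 15 = 0 ∧ c 9 * t ^ 3 + c 17 * t + c 19 = 0 := fun t ht => by
    have h1 : E c 1 0 0 t 1 0 0 t = 0 := H _ ht ![1, 0, 0, t]
    have h2 : E c 1 0 0 t 0 0 0 1 = 0 := H _ ht ![0, 0, 0, 1]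
    have h3 : E c 1 0 0 t 0 1 0 0 = 0 := H _ ht ![0, 1, 0, 0]
    have h4 : E c 1 0 0 t 0 0 1 0 = 0 := H _ ht ![0, 0, 1, 0]
    unfold E at h1 h2 h3 h4
    exact ⟨⟨by linear_combination h1 / 4, by linear_combination h2⟩, by linear_combination h3,
      by linear_combination h4⟩
  have X1 : ∀ t, some ((1 : Fin 3), t) ∈ Z →
      (c 0 * t ^ 4 + c 5 * t ^ 3 + c 6 * t ^ 2 + c 7 * t + c 8 = 0 ∧
      4 * c 0 * t ^ 3 + 3 * c 5 * t ^ 2 + 2 * c 6 * t + c 7 = 0) ∧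
      c 1 * t ^ 3 + c 14 * t + c 16 = 0 ∧ c 9 * t ^ 3 + c 21 * t + c 23 = 0 := fun t ht => by
    have h1 : E c 0 1 0 t 0 1 0 t = 0 := H _ ht ![0, 1, 0, t]
    have h2 : E c 0 1 0 t 0 0 0 1 = 0 := H _ ht ![0, 0, 0, 1]
    have h3 : E c 0 1 0 t 1 0 0 0 = 0 := H _ ht ![1, 0, 0, 0]
    have h4 : E c 0 1 0 t 0 0 1 0 = 0 := H _ ht ![0, 0, 1, 0]
    unfold E at h1 h2 h3 h4
    exact ⟨⟨by linear_combination h1 / 4, by linear_combination h2⟩, by linear_combination h3,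
      by linear_combination h4⟩
  have X2 : ∀ t, some ((2 : Fin 3), t) ∈ Z →
      (c 0 * t ^ 4 + c 9 * t ^ 3 + c 10 * t ^ 2 + c 11 * t + c 12 = 0 ∧
      4 * c 0 * t ^ 3 + 3 * c 9 * t ^ 2 + 2 * c 10 * t + c 11 = 0) ∧
      c 1 * t ^ 3 + c 18 * t + c 20 = 0 ∧ c 5 * t ^ 3 + c 22 * t + c 24 = 0 := fun t ht => by
    have h1 : E c 0 0 1 t 0 0 1 t = 0 := H _ ht ![0, 0, 1, t]
    have h2 : E c 0 0 1 t 0 0 0 1 = 0 := H _ ht ![0, 0, 0, 1]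
    have h3 : E c 0 0 1 t 1 0 0 0 = 0 := H _ ht ![1, 0, 0, 0]
    have h4 : E c 0 0 1 t 0 1 0 0 = 0 := H _ ht ![0, 1, 0, 0]
    unfold E at h1 h2 h3 h4
    exact ⟨⟨by linear_combination h1 / 4, by linear_combination h2⟩, by linear_combination h3,
      by linear_combination h4⟩
  have hA : c 0 = 0 := by
    rcases three with h | ⟨i, s, t, r, h1, h2, h3, hs, ht, hr⟩
    · have h2 : E c 0 0 0 1 0 0 0 1 = 0 := H _ h ![0, 0, 0, 1]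
      unfold E at h2
      linear_combination h2 / 4
    · fin_cases i
      · exact quar h1 h2 h3 fun u hu => (X0 u (by rcases hu with rfl | rfl | rfl <;> assumption)).1
      · exact quar h1 h2 h3 fun u hu => (X1 u (by rcases hu with rfl | rfl | rfl <;> assumption)).1
      · exact quar h1 h2 h3 fun u hu => (X2 u (by rcases hu with rfl | rfl | rfl <;> assumption)).1
  obtain ⟨s0, t0, n0, hs0, ht0⟩ := two 0
  obtain ⟨s1, t1, n1, hs1, ht1⟩ := two 1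
  obtain ⟨s2, t2, n2, hs2, ht2⟩ := two 2
  obtain ⟨⟨a1, a2⟩, a3, a4⟩ := X0 s0 hs0
  obtain ⟨⟨b1, b2⟩, b3, b4⟩ := X0 t0 ht0
  obtain ⟨⟨c1, c2⟩, c3, c4⟩ := X1 s1 hs1
  obtain ⟨⟨d1, d2⟩, d3, d4⟩ := X1 t1 ht1
  obtain ⟨⟨e1, e2⟩, e3, e4⟩ := X2 s2 hs2
  obtain ⟨⟨f1, f2⟩, f3, f4⟩ := X2 t2 ht2
  simp only [hA, zero_mul, zero_add, mul_zero] at a1 a2 b1 b2 c1 c2 d1 d2 e1 e2 f1 f2
  obtain ⟨k1, k2, k3, k4⟩ := cub n0 a1 a2 b1 b2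
  obtain ⟨k5, k6, k7, k8⟩ := cub n1 c1 c2 d1 d2
  obtain ⟨k9, k10, k11, k12⟩ := cub n2 e1 e2 f1 f2
  simp only [k1, k5, k9, zero_mul, zero_add] at a3 a4 b3 b4 c3 c4 d3 d4 e3 e4 f3 f4
  obtain ⟨k13, k15⟩ := lin n0 a3 b3
  obtain ⟨k17, k19⟩ := lin n0 a4 b4
  obtain ⟨k14, k16⟩ := lin n1 c3 d3
  obtain ⟨k21, k23⟩ := lin n1 c4 d4
  obtain ⟨k18, k20⟩ := lin n2 e3 f3
  obtain ⟨k22, k24⟩ := lin n2 e4 f4
  intro k
  fin_cases k <;> assumption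

end Pool.Agent.H.MP_676d90_ag
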