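import Pool.Agent.H.MP_676d90_ag.B

set_option autoImplicit false
open MvPolynomial Module

namespace Pool.Agent.H.MP_676d90_ag

theorem ev_single {n d : ℕ} {g : S n} (hg : g.IsHomogeneous d) (i : Fin (n + 1)) :
    eval (Pi.single i 1) g = coeff (Finsupp.single i d) g := by
  rw [eval_eq', Finset.sum_eq_single (Finsupp.single i d)]
  · rw [Finset.prod_eq_one, mul_one]
    intro j _
    by_cases h : j = i
    · subst h; simp
    · simp [h]
  · intro s hs hne
    have hd := dg hg (mem_support_iff.mp hs)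
    by_cases h : ∀ j, j ≠ i → s j = 0
    · exfalso
      apply hne
      have e : s = Finsupp.single i (s i) := by
        ext j
        by_cases hj : j = i
        · subst hj; simp
        · simp [h j hj, Ne.symm hj]
      rw [e] at hd ⊢
      simp at hd
      rw [hd]
    · push Not at h
      obtain ⟨j, hj, h⟩ := h
      rw [Finset.prod_eq_zero (Finset.mem_univ j), mul_zero]
      simp [hj, h]
  · intro h
    rw [notMem_support_iff.mp h, zero_mul]

theorem cubic {F : S 3} (hF : F.IsHomogeneous 3) (h0 : F ≠ 0)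
    (hw : ∀ v, D v (Pi.single 3 1) F = 0)
    (hs : ∀ i : Fin (3 + 1), i ≠ 3 → ∀ h, D (Pi.single i 1) h F = 0) :
    ∃ c : ℂ, c ≠ 0 ∧ F = c • (X 0 * X 1 * X 2) := by
  have Dj : ∀ v j, D v (Pi.single j 1) F = eval v (pderiv j F) := fun v j => by
    rw [D_eq]; simp [Pi.single_apply]
  have p3 : pderiv 3 F = 0 := zero_of_ev fun v => by rw [← Dj, hw]
  have k1 : ∀ m : Fin (3 + 1) →₀ ℕ, coeff (m + Finsupp.single 3 1) F = 0 := fun m => by
    have := coeff_pderiv (i := 3) F m
    rw [p3, coeff_zero] at this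
    exact (mul_eq_zero.mp this.symm).resolve_right (Nat.cast_add_one_ne_zero _)
  have k2 : ∀ i j : Fin (3 + 1), i ≠ 3 → coeff (Finsupp.single i 2 + Finsupp.single j 1) F = 0 :=
    fun i j hi => by
    have := coeff_pderiv (i := j) F (Finsupp.single i 2)
    rw [← ev_single (d := 2) hF.pderiv, ← Dj, hs i hi] at this
    exact (mul_eq_zero.mp this.symm).resolve_right (Nat.cast_add_one_ne_zero _)
  let m0 : Fin (3 + 1) →₀ ℕ := Finsupp.single 0 1 + Finsupp.single 1 1 + Finsupp.single 2 1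
  have e : F = coeff m0 F • (X 0 * X 1 * X 2) := by
    have e0 : (X 0 * X 1 * X 2 : S 3) = monomial m0 1 := by simp [X, m0, monomial_mul]
    rw [e0]
    ext m
    rw [coeff_smul, coeff_monomial]
    split_ifs with h
    · simp [h]
    · rw [smul_zero]
      by_contra hc
      have hd := dg hF hc
      rw [Finsupp.degree_eq_sum, Fin.sum_univ_four] at hd
      have key : ∀ m' : Fin (3 + 1) →₀ ℕ, m 0 = m' 0 → m 1 = m' 1 → m 2 = m' 2 → m 3 = m' 3 → m = m' :=
        fun m' a b c d => by ext j; fin_cases j <;> assumption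
      by_cases h3 : m 3 = 0
      · have q : ∀ i j : Fin (3 + 1), i ≠ 3 → m ≠ Finsupp.single i 2 + Finsupp.single j 1 :=
          fun i j hi e => hc (e ▸ k2 i j hi)
        have q00 := mt (fun h : _ ∧ _ ∧ _ ∧ _ => key _ h.1 h.2.1 h.2.2.1 h.2.2.2) (q 0 0 (by decide))
        have q01 := mt (fun h : _ ∧ _ ∧ _ ∧ _ => key _ h.1 h.2.1 h.2.2.1 h.2.2.2) (q 0 1 (by decide))
        have q02 := mt (fun h : _ ∧ _ ∧ _ ∧ _ => key _ h.1 h.2.1 h.2.2.1 h.2.2.2) (q 0 2 (by decide))
        have q10 := mt (fun h : _ ∧ _ ∧ _ ∧ _ => key _ h.1 h.2.1 h.2.2.1 h.2.2.2) (q 1 0 (by decide))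
        have q11 := mt (fun h : _ ∧ _ ∧ _ ∧ _ => key _ h.1 h.2.1 h.2.2.1 h.2.2.2) (q 1 1 (by decide))
        have q12 := mt (fun h : _ ∧ _ ∧ _ ∧ _ => key _ h.1 h.2.1 h.2.2.1 h.2.2.2) (q 1 2 (by decide))
        have q20 := mt (fun h : _ ∧ _ ∧ _ ∧ _ => key _ h.1 h.2.1 h.2.2.1 h.2.2.2) (q 2 0 (by decide))
        have q21 := mt (fun h : _ ∧ _ ∧ _ ∧ _ => key _ h.1 h.2.1 h.2.2.1 h.2.2.2) (q 2 1 (by decide))
        have q22 := mt (fun h : _ ∧ _ ∧ _ ∧ _ => key _ h.1 h.2.1 h.2.2.1 h.2.2.2) (q 2 2 (by decide))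
        have qm := mt (fun h : _ ∧ _ ∧ _ ∧ _ => (key m0 h.1 h.2.1 h.2.2.1 h.2.2.2).symm) h
        simp [m0] at q00 q01 q02 q10 q11 q12 q20 q21 q22 qm
        generalize m 0 = a at *
        generalize m 1 = b at *
        generalize m 2 = c at *
        have ha : a ≤ 3 := by clear q00 q01 q02 q10 q11 q12 q20 q21 q22 qm; omega
        have hb : b ≤ 3 := by clear q00 q01 q02 q10 q11 q12 q20 q21 q22 qm; omega
        have hc : c ≤ 3 := by clear q00 q01 q02 q10 q11 q12 q20 q21 q22 qm; omega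
        rw [h3] at hd
        interval_cases a <;> interval_cases b <;> interval_cases c <;> simp [h3] at *
      · apply hc
        have := k1 (m - Finsupp.single 3 1)
        rwa [tsub_add_cancel_of_le (Finsupp.single_le_iff.mpr (Nat.one_le_iff_ne_zero.mpr h3))] at this
  refine ⟨_, fun h => h0 ?_, e⟩
  rw [e, h, zero_smul]

theorem ext1 {Y : Finset (PP 3)} (h1 : H1 Y 1 = 4) {k : ℕ} (hk : k < 4) (v : Fin k → V) :
    ∃ P ∈ Y, P.rep ∉ Submodule.span ℂ (Set.range v) := by
  by_contra hn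
  push Not at hn
  have hlt : Submodule.span ℂ (Set.range v) < ⊤ := by
    refine lt_top_iff_ne_top.mpr fun e => ?_
    have := finrank_range_le_card (R := ℂ) v
    rw [Set.finrank, e] at this
    simp at this
    omega
  obtain ⟨φ, h0, hφ⟩ := Submodule.exists_le_ker_of_lt_top _ hlt
  have := up (I := ⨅ P ∈ Y, pr P) (d := 1) (fun _ : Unit => lf φ) (fun _ => lf_hom φ)
    (fun _ => memI.mpr fun P hP => mem_pr' (lf_hom φ) P.rep_nonzero (rep_mem P)
      (by rw [ev_lf]; exact hφ (hn P hP))) fun c hc i => by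
      by_contra hc0
      apply h0
      refine LinearMap.ext fun w => ?_
      have := congrArg (eval w) hc
      simpa [hc0] using this
  unfold H1 at h1
  rw [h1] at this
  simp at this

theorem classify (p : V) (hp : p ≠ 0) (h1 : p 1 * p 2 = 0) (h2 : p 0 * p 2 = 0) (h3 : p 0 * p 1 = 0) :
    ∃ (o : Option (Fin 3 × ℂ)) (a : ℂ), vec o = a • p := by
  by_cases a0 : p 0 = 0
  · by_cases a1 : p 1 = 0
    · by_cases a2 : p 2 = 0
      · have a3 : p 3 ≠ 0 := fun a3 => hp (by ext j; fin_cases j <;> assumption)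
        exact ⟨none, (p 3)⁻¹, by ext j; fin_cases j <;> simp [vec, *]⟩
      · exact ⟨some (2, (p 2)⁻¹ * p 3), (p 2)⁻¹, by ext j; fin_cases j <;> simp [vec, *]⟩
    · have a2 : p 2 = 0 := (mul_eq_zero.mp h1).resolve_left a1
      exact ⟨some (1, (p 1)⁻¹ * p 3), (p 1)⁻¹, by ext j; fin_cases j <;> simp [vec, *]⟩
  · have a1 : p 1 = 0 := (mul_eq_zero.mp h3).resolve_left a0
    have a2 : p 2 = 0 := (mul_eq_zero.mp h2).resolve_left a0
    exact ⟨some (0, (p 0)⁻¹ * p 3), (p 0)⁻¹, by ext j; fin_cases j <;> simp [vec, *]⟩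

theorem normal {Y : Finset (PP 3)} (h1 : H1 Y 1 = 4) (h2 : H1 Y 2 = 7) (h3 : H2 Y 3 ≤ 19) :
    ∃ (T : V ≃ₗ[ℂ] V) (τ : PP 3 → Option (Fin 3 × ℂ)), ∀ P ∈ Y, T (vec (τ P)) ∈ P.submodule := by
  obtain ⟨F, F0, Fh, FI⟩ := ex (I := ⨅ P ∈ Y, pr P ^ 2) (d := 3)
    (lt_of_le_of_lt h3 (by decide))
  rw [memI] at FI
  obtain ⟨u, u0, hu⟩ := dep (I := ⨅ P ∈ Y, pr P) (d := 2) (fun j => pderiv j F)
    (fun j => Fh.pderiv) (fun j => memI.mpr fun P hP => pd_mem (FI P hP) j)
    (by unfold H1 at h2; rw [h2]; decide)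
  have l1 : LinearIndependent ℂ ![u] := linearIndependent_unique_iff.mpr (by simpa using u0)
  obtain ⟨P2, m2, n2⟩ := ext1 h1 (by decide) ![u]
  have l2 : LinearIndependent ℂ ![P2.rep, u] := linearIndependent_finCons.mpr ⟨l1, n2⟩
  obtain ⟨P1, m1, n1⟩ := ext1 h1 (by decide) ![P2.rep, u]
  have l3 : LinearIndependent ℂ ![P1.rep, P2.rep, u] := linearIndependent_finCons.mpr ⟨l2, n1⟩
  obtain ⟨P0, m0, n0⟩ := ext1 h1 (by decide) ![P1.rep, P2.rep, u]
  have l4 : LinearIndependent ℂ ![P0.rep, P1.rep, P2.rep, u] := linearIndependent_finCons.mpr ⟨l3, n0⟩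
  let b := basisOfLinearIndependentOfCardEqFinrank l4 (by simp)
  let T : V ≃ₗ[ℂ] V := b.equivFun.symm
  have hT : ∀ i, T (Pi.single i 1) = ![P0.rep, P1.rep, P2.rep, u] i := fun i => by
    simp [T, b, Pi.single_apply]
  obtain ⟨c, c0, hc⟩ := cubic (F := sub T.toLinearMap F) (sub_hom _ Fh)
    (fun h => F0 (zero_of_ev fun v => by
      have := ev_sub T.toLinearMap F (T.symm v)
      rw [h] at this
      simpa using this.symm))
    (fun v => by
      rw [D_subs, LinearEquiv.coe_coe, hT, D_eq]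
      exact (congrArg (eval (T v)) hu).trans (map_zero _))
    (fun i hi h => by
      rw [D_subs, LinearEquiv.coe_coe, hT]
      fin_cases i
      · exact D_sq (FI P0 m0) (rep_mem P0) _
      · exact D_sq (FI P1 m1) (rep_mem P1) _
      · exact D_sq (FI P2 m2) (rep_mem P2) _
      · exact absurd rfl hi)
  have : ∀ P : PP 3, ∃ o, P ∈ Y → T (vec o) ∈ P.submodule := fun P => by
    by_cases hP : P ∈ Y
    · have k : ∀ h, D (T.symm P.rep) h (c • (X 0 * X 1 * X 2)) = 0 := fun h => by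
        rw [← hc, D_subs]
        exact D_sq (FI P hP) (by simpa using rep_mem P) _
      obtain ⟨o, a, ho⟩ := classify (T.symm P.rep) (by simpa using P.rep_nonzero)
        (by simpa [c0, Pi.single_apply] using k (Pi.single 0 1))
        (by simpa [c0, Pi.single_apply] using k (Pi.single 1 1))
        (by simpa [c0, Pi.single_apply] using k (Pi.single 2 1))
      refine ⟨o, fun _ => ?_⟩
      rw [ho, map_smul]
      exact Submodule.smul_mem _ _ (by simpa using rep_mem P)
    · exact ⟨none, fun h => absurd h hP⟩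
  choose τ hτ using this
  exact ⟨T, τ, fun P hP => hτ P hP⟩

theorem key {Y : Finset (PP 3)} (h0 : Y.card = 7) (h1 : H1 Y 1 = 4) (h2 : H1 Y 2 = 7)
    (h3 : H2 Y 3 ≤ 19) : 25 ≤ H2 Y 4 := by
  classical
  obtain ⟨T, τ, hT⟩ := normal h1 h2 h3
  have nz : ∀ o, T (vec o) ≠ 0 := fun o => by simpa using vec_ne o
  have inj : Set.InjOn τ Y := fun P hP Q hQ e => eq_of_mem (nz _) (hT P hP) (e ▸ hT Q hQ)
  let Z := Y.image τ
  have hZ : Z.card = 7 := by rw [Finset.card_image_of_injOn inj, h0]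
  have two : ∀ i : Fin 3, ∃ s t : ℂ, s ≠ t ∧ some (i, s) ∈ (Z : Set (Option (Fin 3 × ℂ))) ∧ some (i, t) ∈ (Z : Set (Option (Fin 3 × ℂ))) := fun i => by
    by_contra hn
    obtain ⟨t, ht⟩ : ∃ t, ∀ s, some (i, s) ∈ Z → s = t := by
      by_cases h : ∃ t, some (i, t) ∈ Z
      · obtain ⟨t, h⟩ := h
        exact ⟨t, fun s hs => by
          by_contra hst; exact hn ⟨s, t, hst, Finset.mem_coe.mpr hs, Finset.mem_coe.mpr h⟩⟩
      · exact ⟨0, fun s hs => absurd ⟨s, hs⟩ h⟩
    let q : Fin 4 → S 3 := ![X 0 * X 1, X 0 * X 2, X 1 * X 2,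
      X i.castSucc * (X 3 - t • X i.castSucc)]
    have qh : ∀ k, (q k).IsHomogeneous 2 := fun k => by
      have x := fun j : Fin (3 + 1) => isHomogeneous_X ℂ j
      fin_cases k
      · exact (x 0).mul (x 1)
      · exact (x 0).mul (x 2)
      · exact (x 1).mul (x 2)
      · exact (x _).mul (Submodule.sub_mem (R 3 1) (x 3) (Submodule.smul_mem _ _ (x _)))
    have := up (I := ⨅ P ∈ Y, pr P) (d := 2) (fun k => sub T.symm.toLinearMap (q k))
      (fun k => sub_hom _ (qh k))
      (fun k => memI.mpr fun P hP => mem_pr' (sub_hom _ (qh k)) (nz _) (hT P hP) (by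
        rw [ev_sub]
        have hm : τ P ∈ Z := Finset.mem_image_of_mem _ hP
        generalize τ P = o at hm
        rcases o with _ | ⟨j, s⟩
        · fin_cases k <;> fin_cases i <;> simp [q, vec]
        · by_cases hj : j = i
          · subst hj
            rw [ht s hm]
            fin_cases k <;> fin_cases j <;> simp [q, vec]
          · fin_cases k <;> fin_cases j <;> fin_cases i <;> simp [q, vec] at hj ⊢))
      fun c hc => by
        have e : ∀ v : V, c 0 * (v 0 * v 1) + c 1 * (v 0 * v 2) + c 2 * (v 1 * v 2) +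
            c 3 * (v i.castSucc * (v 3 - t * v i.castSucc)) = 0 := fun v => by
          have := congrArg (eval (T v)) hc
          simpa [Fin.sum_univ_four, ev_sub, q] using this
        have c3 : c 3 = 0 := by
          have := e (vec (some (i, t + 1)))
          fin_cases i <;> simpa [vec] using this
        have c0 := e ![1, 1, 0, 0]
        have c1 := e ![1, 0, 1, 0]
        have c2 := e ![0, 1, 1, 0]
        simp [c3] at c0 c1 c2
        intro k
        fin_cases k <;> assumption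
    unfold H1 at h2
    rw [h2] at this
    revert this
    decide
  have three : none ∈ (Z : Set (Option (Fin 3 × ℂ))) ∨ ∃ (i : Fin 3) (s t r : ℂ), s ≠ t ∧ s ≠ r ∧ t ≠ r ∧ some (i, s) ∈ (Z : Set (Option (Fin 3 × ℂ))) ∧
      some (i, t) ∈ (Z : Set (Option (Fin 3 × ℂ))) ∧ some (i, r) ∈ (Z : Set (Option (Fin 3 × ℂ))) := by
    by_cases hn : none ∈ Z
    · exact Or.inl hn
    · right
      obtain ⟨i, -, hi⟩ := Finset.exists_lt_card_fiber_of_mul_lt_card_of_maps_to (s := Z)
        (t := Finset.univ) (f := fun o : Option (Fin 3 × ℂ) => (o.getD (0, 0)).1) (n := 2)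
        (fun _ _ => Finset.mem_univ _) (by rw [hZ]; decide)
      obtain ⟨a, ha, b, hb, c, hc, hab, hac, hbc⟩ := Finset.two_lt_card.mp hi
      rw [Finset.mem_filter] at ha hb hc
      rcases a with _ | ⟨ia, s⟩
      · exact absurd ha.1 hn
      rcases b with _ | ⟨ib, t⟩
      · exact absurd hb.1 hn
      rcases c with _ | ⟨ic, r⟩
      · exact absurd hc.1 hn
      obtain rfl : ia = i := ha.2
      obtain rfl : ib = ia := hb.2
      obtain rfl : ic = ib := hc.2
      exact ⟨ic, s, t, r, fun e => hab (by rw [e]), fun e => hac (by rw [e]), fun e => hbc (by rw [e]),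
        ha.1, hb.1, hc.1⟩
  refine low (I := ⨅ P ∈ Y, pr P ^ 2) (fun k => sub T.symm.toLinearMap (mon k))
    (fun k => sub_hom _ (mon_hom k)) fun c hc => core _ two three c fun o ho h => ?_
  obtain ⟨P, hP, rfl⟩ := Finset.mem_image.mp ho
  have := D_sq (memI.mp hc P hP) (hT P hP) (T h)
  rw [D_sum] at this ⊢
  simpa [D_subs] using this

end Pool.Agent.H.MP_676d90_ag
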