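import Mathlib

set_option autoImplicit false
open MvPolynomial Module

namespace Pool.Agent.H.MP_676d90_ag

abbrev S (n : ℕ) := MvPolynomial (Fin (n + 1)) ℂ

abbrev PP (n : ℕ) := Projectivization ℂ (Fin (n + 1) → ℂ)

/-- The homogeneous prime ideal of a point: polynomials vanishing on the corresponding line. -/
noncomputable def pr {n : ℕ} (P : PP n) : Ideal (S n) :=
  vanishingIdeal ℂ (P.submodule : Set (Fin (n + 1) → ℂ))

/-- The Hilbert function: dimension of the degree `d` part of `S / I`. -/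
noncomputable def hf {n : ℕ} (I : Ideal (S n)) (d : ℕ) : ℕ :=
  finrank ℂ ((homogeneousSubmodule (Fin (n + 1)) ℂ d).map (Ideal.Quotient.mkₐ ℂ I).toLinearMap)

/-- Hilbert function of the reduced points. -/
noncomputable def H1 {n : ℕ} (Y : Finset (PP n)) : ℕ → ℕ := hf (⨅ P ∈ Y, pr P)

/-- Hilbert function of the double points. -/
noncomputable def H2 {n : ℕ} (Y : Finset (PP n)) : ℕ → ℕ := hf (⨅ P ∈ Y, pr P ^ 2)

end Pool.Agent.H.MP_676d90_ag
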