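import Pool.Agent.H.MP_676d90_ag.C

set_option autoImplicit false
open MvPolynomial Module

namespace Pool.Agent.H.MP_676d90_ag

/-- integer linear form -/
noncomputable def L (a : Fin (3 + 1) → ℤ) : S 3 := ∑ j, (a j : ℂ) • X j

def dot (a v : Fin (3 + 1) → ℤ) : ℤ := a 0 * v 0 + a 1 * v 1 + a 2 * v 2 + a 3 * v 3

def cv (v : Fin (3 + 1) → ℤ) : V := fun j => v j

theorem L_hom (a : Fin (3 + 1) → ℤ) : (L a).IsHomogeneous 1 :=
  Submodule.sum_mem (R 3 1) fun j _ => Submodule.smul_mem _ _ (isHomogeneous_X ℂ j)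

theorem ev_L (a v : Fin (3 + 1) → ℤ) : eval (cv v) (L a) = (dot a v : ℤ) := by
  simp [L, cv, dot, Fin.sum_univ_four]

theorem cv_ne {v : Fin (3 + 1) → ℤ} {l : Fin (3 + 1) → ℤ} (h : dot l v ≠ 0) : cv v ≠ 0 := by
  intro e
  apply h
  have := ev_L l v
  rw [e] at this
  simpa [L] using this.symm

structure Cfg where
  v : Fin 7 → Fin (3 + 1) → ℤ
  l : Fin (3 + 1) → ℤ
  a : Fin 7 → Fin (3 + 1) → ℤ
  b : Fin 7 → Fin (3 + 1) → ℤ
  e : Fin (3 + 1) → Fin 7
  hl : ∀ i, dot l (v i) ≠ 0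
  hd : ∀ i j, dot (a i) (v j) * dot (b i) (v j) = if i = j then 1 else 0
  he : ∀ i j, v (e i) j = if i = j then 1 else 0

noncomputable def Cfg.pt (c : Cfg) (i : Fin 7) : PP 3 := Projectivization.mk ℂ (cv (c.v i)) (cv_ne (c.hl i))

theorem Cfg.mem (c : Cfg) (i : Fin 7) : cv (c.v i) ∈ (c.pt i).submodule := by
  rw [Cfg.pt, Projectivization.submodule_mk]; exact Submodule.mem_span_singleton_self _

open Classical in
noncomputable def Cfg.Y (c : Cfg) : Finset (PP 3) := Finset.univ.image c.pt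

theorem Cfg.memY (c : Cfg) (i : Fin 7) : c.pt i ∈ c.Y := by
  classical
  exact Finset.mem_image_of_mem _ (Finset.mem_univ i)

theorem Cfg.exY (c : Cfg) {P : PP 3} (h : P ∈ c.Y) : ∃ i, c.pt i = P := by
  classical
  simpa [Cfg.Y] using h

theorem Cfg.evq (c : Cfg) (i j : Fin 7) :
    eval (cv (c.v j)) (L (c.a i) * L (c.b i)) = if i = j then 1 else 0 := by
  rw [map_mul, ev_L, ev_L, ← Int.cast_mul, c.hd]; simp

theorem Cfg.card (c : Cfg) : c.Y.card = 7 := by
  classical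
  rw [Cfg.Y, Finset.card_image_of_injective, Finset.card_univ, Fintype.card_fin]
  intro i j e
  by_contra hn
  have h1 : L (c.a i) * L (c.b i) ∈ pr (c.pt j) :=
    mem_pr' ((L_hom _).mul (L_hom _)) (cv_ne (c.hl j)) (c.mem j) (by rw [c.evq, if_neg hn])
  have := mem_pr.mp h1 _ (e ▸ c.mem i)
  rw [c.evq] at this
  simp at this

theorem Cfg.gen (c : Cfg) (d : ℕ) : H1 c.Y d = min ((d + 3).choose 3) 7 := by
  have u1 : H1 c.Y d ≤ (d + 3).choose 3 := by
    have := hfK (⨅ P ∈ c.Y, pr P) d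
    rw [add_comm 3 d, Nat.choose_symm_add] at this
    unfold H1; omega
  have u2 := upY c.Y d
  rw [c.card] at u2
  refine le_antisymm (le_min u1 u2) ?_
  rcases d with _ | _ | d
  · refine low (fun _ : Unit => (1 : S 3)) (fun _ => isHomogeneous_one _ _) fun k hk i => ?_
    simpa using mem_pr.mp (memI.mp hk _ (c.memY 0)) _ (c.mem 0)
  · refine low (fun i : Fin (3 + 1) => (X i : S 3)) (fun _ => isHomogeneous_X _ _) fun k hk i => ?_
    simpa [cv, c.he] using mem_pr.mp (memI.mp hk _ (c.memY (c.e i))) _ (c.mem (c.e i))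
  · refine (min_le_right _ _).trans ?_
    refine low (fun i : Fin 7 => L (c.a i) * L (c.b i) * L c.l ^ d) (fun i => ?_) fun k hk i => ?_
    · have := ((L_hom (c.a i)).mul (L_hom (c.b i))).mul ((L_hom c.l).pow d)
      rwa [show 1 + 1 + 1 * d = d + 1 + 1 by ring] at this
    · have := mem_pr.mp (memI.mp hk _ (c.memY i)) _ (c.mem i)
      rw [map_sum] at this
      simp only [smul_eval, map_mul (eval _) (L _ * L _), c.evq, map_pow, ev_L] at this
      simpa [c.hl i] using this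

theorem Cfg.sq (c : Cfg) {k : ℕ} (q : Fin k → Fin (3 + 1) → ℤ)
    (h : ∀ p, ∃ i j, i ≠ j ∧ dot (q i) (c.v p) = 0 ∧ dot (q j) (c.v p) = 0) :
    ∏ i, L (q i) ∈ ⨅ P ∈ c.Y, pr P ^ 2 := by
  refine memI.mpr fun P hP => ?_
  obtain ⟨p, rfl⟩ := c.exY hP
  obtain ⟨i, j, hij, hi, hj⟩ := h p
  have m : ∀ i, dot (q i) (c.v p) = 0 → L (q i) ∈ pr (c.pt p) := fun i hi =>
    mem_pr' (L_hom _) (cv_ne (c.hl p)) (c.mem p) (by rw [ev_L, hi, Int.cast_zero])
  rw [← Finset.mul_prod_erase _ _ (Finset.mem_univ i),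
    ← Finset.mul_prod_erase _ _ (Finset.mem_erase.mpr ⟨hij.symm, Finset.mem_univ j⟩), ← mul_assoc, pow_two]
  exact Ideal.mul_mem_right _ _ (Ideal.mul_mem_mul (m i hi) (m j hj))

theorem prod_hom {k : ℕ} (q : Fin k → Fin (3 + 1) → ℤ) : (∏ i, L (q i)).IsHomogeneous k := by
  simpa using IsHomogeneous.prod Finset.univ (fun i => L (q i)) (fun _ => 1) fun i _ => L_hom _

def cA : Cfg where
  v := ![![0,0,0,1], ![1,0,0,0], ![1,0,0,1], ![0,1,0,0], ![0,1,0,1], ![0,0,1,0], ![0,0,1,1]]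
  l := ![1,1,1,1]
  a := ![![0,0,0,1], ![1,0,0,0], ![1,0,0,0], ![0,1,0,0], ![0,1,0,0], ![0,0,1,0], ![0,0,1,0]]
  b := ![![-1,-1,-1,1], ![1,0,0,-1], ![0,0,0,1], ![0,1,0,-1], ![0,0,0,1], ![0,0,1,-1], ![0,0,0,1]]
  e := ![1, 3, 5, 0]
  hl := by decide
  hd := by decide
  he := by decide

def cB : Cfg where
  v := ![![1,0,0,0], ![0,1,0,0], ![0,0,1,0], ![0,1,-1,0], ![1,0,-1,0], ![1,-1,0,0], ![0,0,0,1]]
  l := ![1,2,3,1]
  a := ![![1,0,0,0], ![0,1,0,0], ![0,0,1,0], ![0,1,0,0], ![1,0,0,0], ![1,0,0,0], ![0,0,0,1]]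
  b := ![![1,1,1,0], ![1,1,1,0], ![1,1,1,0], ![0,0,-1,0], ![0,0,-1,0], ![0,-1,0,0], ![0,0,0,1]]
  e := ![0, 1, 2, 6]
  hl := by decide
  hd := by decide
  he := by decide

theorem HA : H2 cA.Y 3 ≤ 19 := by
  let q : Fin 3 → Fin (3 + 1) → ℤ := ![![1,0,0,0], ![0,1,0,0], ![0,0,1,0]]
  have := up (I := ⨅ P ∈ cA.Y, pr P ^ 2) (d := 3) (fun _ : Unit => ∏ i, L (q i))
    (fun _ => prod_hom q) (fun _ => cA.sq q (by decide)) fun c hc i => by
      have := congrArg (eval (cv ![1,1,1,0])) hc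
      simpa [ev_L, q, dot, Fin.prod_univ_three] using this
  have e : (3 + 3).choose 3 = 20 := by decide
  rw [e, Fintype.card_unit] at this
  unfold H2; omega

def lB : Fin 5 → Fin (3 + 1) → ℤ := ![![1,0,0,0], ![0,1,0,0], ![0,0,1,0], ![0,0,0,1], ![1,1,1,0]]
def qB : Fin 11 → Fin 4 → Fin 5 := ![![0,1,2,4], ![3,0,1,2], ![3,0,1,4], ![3,0,2,4], ![3,1,2,4],
  ![3,3,0,0], ![3,3,1,1], ![3,3,2,2], ![3,3,0,1], ![3,3,0,2], ![3,3,1,2]]

theorem HB : H2 cB.Y 4 ≤ 24 := by
  have hq : ∀ k p, ∃ i j, i ≠ j ∧ dot (lB (qB k i)) (cB.v p) = 0 ∧ dot (lB (qB k j)) (cB.v p) = 0 := by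
    decide
  have := up (I := ⨅ P ∈ cB.Y, pr P ^ 2) (d := 4) (fun k : Fin 11 => ∏ i, L (lB (qB k i)))
    (fun k => prod_hom _) (fun k => cB.sq _ (hq k)) fun c hc => by
      have e : ∀ x y z w : ℤ, c 0 * (x * y * z * (x + y + z)) + c 1 * (w * x * y * z) +
          c 2 * (w * x * y * (x + y + z)) + c 3 * (w * x * z * (x + y + z)) +
          c 4 * (w * y * z * (x + y + z)) + c 5 * (w * w * x * x) + c 6 * (w * w * y * y) +
          c 7 * (w * w * z * z) + c 8 * (w * w * x * y) + c 9 * (w * w * x * z) +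
          c 10 * (w * w * y * z) = 0 := fun x y z w => by
        have := congrArg (eval (cv ![x, y, z, w])) hc
        rw [map_sum] at this
        simp only [smul_eval, map_prod, ev_L] at this
        simp [Fin.sum_univ_succ, Fin.prod_univ_four, lB, qB, dot] at this
        linear_combination this
      have h0 := e 1 1 1 0
      have h5 := e 1 0 0 1
      have h6 := e 0 1 0 1
      have h7 := e 0 0 1 1
      have a1 := e 1 1 0 1
      have a2 := e 1 1 0 (-1)
      have b1 := e 1 0 1 1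
      have b2 := e 1 0 1 (-1)
      have c1 := e 0 1 1 1
      have c2 := e 0 1 1 (-1)
      have d1 := e 1 1 1 1
      have d2 := e 1 1 1 (-1)
      push_cast at h0 h5 h6 h7 a1 a2 b1 b2 c1 c2 d1 d2
      have k0 : c 0 = 0 := by linear_combination h0 / 3
      have k5 : c 5 = 0 := by linear_combination h5
      have k6 : c 6 = 0 := by linear_combination h6
      have k7 : c 7 = 0 := by linear_combination h7
      have k2 : c 2 = 0 := by linear_combination (a1 - a2) / 4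
      have k3 : c 3 = 0 := by linear_combination (b1 - b2) / 4
      have k4 : c 4 = 0 := by linear_combination (c1 - c2) / 4
      have k8 : c 8 = 0 := by linear_combination (a1 + a2) / 2 - k5 - k6
      have k9 : c 9 = 0 := by linear_combination (b1 + b2) / 2 - k5 - k7
      have k10 : c 10 = 0 := by linear_combination (c1 + c2) / 2 - k6 - k7
      have k1 : c 1 = 0 := by linear_combination (d1 - d2) / 2 - 3 * k2 - 3 * k3 - 3 * k4
      intro k
      fin_cases k <;> assumption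
  have e : (3 + 4).choose 4 = 35 := by decide
  rw [e, Fintype.card_fin] at this
  unfold H2; omega

end Pool.Agent.H.MP_676d90_ag
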