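import Pool.Agent.H.MP_676d90_ag.A

set_option autoImplicit false
open MvPolynomial Module

namespace Pool.Agent.H.MP_676d90_ag

theorem poly0 {N : ℕ} (c : Fin N → ℂ) {ι : Type} [Fintype ι] (t : ι → ℂ) (ht : t.Injective) (e : ℕ)
    (hN : N ≤ e * Fintype.card ι)
    (h : ∀ i, (Polynomial.X - Polynomial.C (t i)) ^ e ∣
      ∑ k : Fin N, Polynomial.C (c k) * Polynomial.X ^ (k : ℕ)) : ∀ k, c k = 0 := by
  have hd := Fintype.prod_dvd_of_coprime (s := fun i => (Polynomial.X - Polynomial.C (t i)) ^ e)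
    (fun i j hij => (Polynomial.pairwise_coprime_X_sub_C ht hij).pow) h
  have h0 := Polynomial.eq_zero_of_dvd_of_degree_lt hd (by
    refine (Polynomial.degree_sum_fin_lt c).trans_le ?_
    rw [Polynomial.degree_prod]
    simp only [Polynomial.degree_pow, Polynomial.degree_X_sub_C]
    simp only [Finset.sum_const, Finset.card_univ, nsmul_eq_mul, mul_one]
    rw [mul_comm] at hN
    exact_mod_cast hN)
  intro k
  have := congrArg (fun p => Polynomial.coeff p k) h0
  simpa [Polynomial.coeff_X_pow, Fin.val_inj] using this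

theorem poly1 {N : ℕ} (c : Fin N → ℂ) {ι : Type} [Fintype ι] (t : ι → ℂ) (ht : t.Injective)
    (hN : N ≤ Fintype.card ι) (h : ∀ i, ∑ k : Fin N, c k * t i ^ (k : ℕ) = 0) : ∀ k, c k = 0 :=
  poly0 c t ht 1 (by simpa using hN) fun i => by
    rw [pow_one, Polynomial.dvd_iff_isRoot]
    simpa [Polynomial.eval_finsetSum] using h i

theorem poly2 {N : ℕ} (c : Fin N → ℂ) {ι : Type} [Fintype ι] (t : ι → ℂ) (ht : t.Injective)
    (hN : N ≤ 2 * Fintype.card ι) (h : ∀ i, ∑ k : Fin N, c k * t i ^ (k : ℕ) = 0)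
    (h' : ∀ i, ∑ k : Fin N, c k * ((k : ℕ) * t i ^ ((k : ℕ) - 1)) = 0) : ∀ k, c k = 0 :=
  poly0 c t ht 2 hN fun i => by
    by_cases h0 : ∑ k : Fin N, Polynomial.C (c k) * Polynomial.X ^ (k : ℕ) = 0
    · rw [h0]; exact dvd_zero _
    · rw [← Polynomial.le_rootMultiplicity_iff h0]
      refine (Polynomial.one_lt_rootMultiplicity_iff_isRoot h0).mpr ⟨?_, ?_⟩
      · simpa [Polynomial.eval_finsetSum] using h i
      · simpa [Polynomial.eval_finsetSum, Polynomial.derivative_sum, Polynomial.derivative_X_pow]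
          using h' i

variable {m : ℕ}

abbrev Ix (m d r : ℕ) := Fin (min (d + 1) (2 * r)) ⊕ (Fin m × Fin (min d r))

noncomputable def gg (d r : ℕ) (A B : S (m + 1)) (Z : Fin m → S (m + 1)) : Ix m d r → S (m + 1)
  | .inl k => B ^ (k : ℕ) * A ^ (d - k)
  | .inr (j, k) => Z j * (B ^ (k : ℕ) * A ^ (d - 1 - k))

theorem gg_hom (d r : ℕ) {A B : S (m + 1)} {Z : Fin m → S (m + 1)} (hA : A.IsHomogeneous 1)
    (hB : B.IsHomogeneous 1) (hZ : ∀ j, (Z j).IsHomogeneous 1) (i : Ix m d r) :
    (gg d r A B Z i).IsHomogeneous d := by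
  rcases i with k | ⟨j, k⟩
  · have := (hB.pow k).mul (hA.pow (d - k))
    have hk := k.2
    rwa [show 1 * (k : ℕ) + 1 * (d - k) = d by omega] at this
  · have := (hZ j).mul ((hB.pow k).mul (hA.pow (d - 1 - k)))
    have hk := k.2
    rwa [show 1 + (1 * (k : ℕ) + 1 * (d - 1 - k)) = d by omega] at this

theorem lowY (Y : Finset (PP (m + 1))) (d : ℕ) :
    min (d + 1) (2 * Y.card) + m * min d Y.card ≤ H2 Y d := by
  classical
  obtain ⟨a, ha⟩ := Module.exists_dual_forall_apply_ne_zero (K := ℂ) (fun P : Y => P.1.rep)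
    fun P => P.1.rep_nonzero
  let v : Y → Fin (m + 1 + 1) → ℂ := fun P => (a P.1.rep)⁻¹ • P.1.rep
  have av : ∀ P, a (v P) = 1 := fun P => by simp [v, ha P]
  have vm : ∀ P, v P ∈ P.1.submodule := fun P => Submodule.smul_mem _ _ (rep_mem _)
  have v0 : ∀ P, v P ≠ 0 := fun P e => by simpa [e] using av P
  obtain ⟨w, aw, w0⟩ : ∃ w ∈ LinearMap.ker a, w ≠ 0 := by
    refine Submodule.exists_mem_ne_zero_of_ne_bot fun e => ?_
    have h1 := a.finrank_range_add_finrank_ker
    have h2 := (LinearMap.range a).finrank_le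
    rw [e] at h1
    simp at h1 h2
    omega
  obtain ⟨b, hb⟩ := Module.exists_dual_forall_apply_ne_zero (K := ℂ)
    (fun p : Y × Y => if p.1 = p.2 then w else v p.1 - v p.2) fun p => by
      split_ifs with h
      · exact w0
      · refine sub_ne_zero.mpr fun e => h (Subtype.ext (eq_of_mem (v0 _) (vm p.1) (e ▸ vm p.2)))
  have inj : (fun P => b (v P)).Injective := fun P Q e => by
    by_contra h
    have := hb (P, Q)
    simp only [if_neg h, map_sub] at this
    exact this (sub_eq_zero.mpr e)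
  obtain ⟨u, hu⟩ : ∃ u : Fin m → LinearMap.ker (a.prod b), LinearIndependent ℂ u := by
    refine exists_linearIndependent_of_le_finrank ?_
    have h1 := (a.prod b).finrank_range_add_finrank_ker
    have h2 := (LinearMap.range (a.prod b)).finrank_le
    simp at h1 h2
    omega
  have hu' : LinearIndependent ℂ fun i => (u i).1 := hu.map' (Submodule.subtype _) (by simp)
  obtain ⟨g, hg⟩ := (Fintype.linearCombination ℂ fun i => (u i).1).exists_leftInverse_of_injective
    (LinearMap.ker_eq_bot.mpr (linearIndependent_iff_injective_fintypeLinearCombination.mp hu'))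
  have gu : ∀ i j, g (u i) j = if j = i then 1 else 0 := fun i j => by
    have := congrFun (LinearMap.congr_fun hg (Pi.single i 1)) j
    simpa [Pi.single_apply, Fintype.linearCombination_apply] using this
  have au : ∀ i, a (u i) = 0 := fun i => congrArg Prod.fst (u i).2
  have bu : ∀ i, b (u i) = 0 := fun i => congrArg Prod.snd (u i).2
  have := low (I := ⨅ P ∈ Y, pr P ^ 2) (d := d)
    (gg d Y.card (lf a) (lf b) fun j => lf ((LinearMap.proj j).comp g))
    (gg_hom _ _ (lf_hom _) (lf_hom _) fun _ => lf_hom _) fun c hc => by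
      rw [memI] at hc
      have k1 : ∀ j k, c (.inr (j, k)) = 0 := fun j => by
        refine poly1 _ _ inj (by simp) fun P => ?_
        have := D_sq (hc P.1 P.2) (vm P) (u j)
        rw [D_sum] at this
        simpa [Fintype.sum_sum_type, Fintype.sum_prod_type, gg, D_pow, au, bu, gu, av] using this
      have k2 : ∀ k, c (.inl k) = 0 := by
        refine poly2 _ _ inj (by simp) (fun P => ?_) fun P => ?_
        · have := mem_pr.mp (Ideal.pow_le_self two_ne_zero (hc P.1 P.2)) _ (vm P)
          simpa [Fintype.sum_sum_type, Fintype.sum_prod_type, gg, k1, av] using this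
        · have := D_sq (hc P.1 P.2) (vm P) w
          rw [D_sum] at this
          have bw : b w ≠ 0 := by simpa using hb (P, P)
          have aw' : a w = 0 := aw
          simp [Fintype.sum_sum_type, gg, D_pow, k1, av, aw'] at this
          refine mul_right_cancel₀ bw ?_
          rw [zero_mul, Finset.sum_mul, ← this]
          exact Finset.sum_congr rfl fun k _ => by ring
      rintro (k | ⟨j, k⟩)
      · exact k2 k
      · exact k1 j k
  simpa [H2] using this

noncomputable def hz (m D : ℕ) : Polynomial ℂ →ₗ[ℂ] S (m + 1) :=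
  (aeval ![X 1, X 0]).toLinearMap.comp (Polynomial.homogenizeLM D)

theorem hz_pow {D k : ℕ} (h : k ≤ D) : hz m D (Polynomial.X ^ k) = X 1 ^ k * X 0 ^ (D - k) := by
  simp [hz, h]

theorem hz_mul (p q : Polynomial ℂ) {a b : ℕ} (ha : p.natDegree ≤ a) (hb : q.natDegree ≤ b) :
    hz m (a + b) (p * q) = hz m a p * hz m b q := by
  simp [hz, Polynomial.homogenize_mul p q ha hb]

theorem hz_hom (D : ℕ) (p : Polynomial ℂ) : (hz m D p).IsHomogeneous D := by
  have := (Polynomial.isHomogeneous_homogenize (n := D) p).aeval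
    (![X 1, X 0] : Fin 2 → S (m + 1)) (n := 1) fun i => by
      fin_cases i <;> exact isHomogeneous_X _ _
  rwa [one_mul] at this

theorem hz_ev {D : ℕ} {p : Polynomial ℂ} (hp : p.natDegree ≤ D) (v : Fin (m + 1 + 1) → ℂ)
    (hv : v 0 = 1) : eval v (hz m D p) = p.eval (v 1) := by
  have := Polynomial.aeval_homogenize_of_eq_one hp ![v 1, v 0] hv
  rw [Polynomial.coe_aeval_eq_eval] at this
  rw [← show _ = p.eval (v 1) from this, ← aeval_eq_eval]
  show aeval v (aeval ![X 1, X 0] (p.homogenize D)) = _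
  rw [← AlgHom.comp_apply, comp_aeval]
  congr 2
  ext i
  fin_cases i <;> simp

theorem red (π : Polynomial ℂ) (hπ : π.Monic) (a b : ℕ) :
    ∃ (c : Fin (min (a + b + 1) π.natDegree) → ℂ) (q : S (m + 1)), X 1 ^ b * X 0 ^ a =
      ∑ k, c k • (X 1 ^ (k : ℕ) * X 0 ^ (a + b - k)) + hz m π.natDegree π * q := by
  by_cases hb : b < π.natDegree
  · refine ⟨Pi.single ⟨b, by omega⟩ 1, 0, ?_⟩
    simp [Pi.single_apply]
  · have e := Polynomial.modByMonic_add_div (Polynomial.X ^ b : Polynomial ℂ) π
    set ρ := (Polynomial.X ^ b : Polynomial ℂ) %ₘ π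
    set q := (Polynomial.X ^ b : Polynomial ℂ) /ₘ π
    have hq : q.natDegree ≤ a + b - π.natDegree := by
      rw [Polynomial.natDegree_divByMonic _ hπ, Polynomial.natDegree_X_pow]; omega
    have hρ : ρ.degree < (min (a + b + 1) π.natDegree : ℕ) := by
      rw [min_eq_right (by omega), ← Polynomial.degree_eq_natDegree hπ.ne_zero]
      exact Polynomial.degree_modByMonic_lt _ hπ
    refine ⟨fun k => ρ.coeff k, hz m (a + b - π.natDegree) q, ?_⟩
    rw [← hz_mul _ _ le_rfl hq, show π.natDegree + (a + b - π.natDegree) = a + b by omega]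
    have e2 : ∑ k : Fin (min (a + b + 1) π.natDegree), ρ.coeff k • (X 1 ^ (k : ℕ) * X 0 ^ (a + b - k)) =
        hz m (a + b) ρ := by
      conv_rhs => rw [← Polynomial.sum_monomial_eq ρ, ← Polynomial.sum_fin _ (by simp) hρ, map_sum]
      refine Finset.sum_congr rfl fun k _ => ?_
      have hk := k.2
      rw [← hz_pow (by omega), ← map_smul, Polynomial.smul_X_eq_monomial]
    rw [e2, ← map_add, e, hz_pow (by omega), Nat.add_sub_cancel]

noncomputable def cvec (m : ℕ) (t : ℂ) : Fin (m + 1 + 1) → ℂ := Fin.cons 1 (Fin.cons t 0)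

theorem cvec_ne (t : ℂ) : cvec m t ≠ 0 := fun h => by simpa [cvec] using congrFun h 0

noncomputable def cpt (m : ℕ) (t : ℂ) : PP (m + 1) := Projectivization.mk ℂ (cvec m t) (cvec_ne t)

theorem cmem (t : ℂ) : cvec m t ∈ (cpt m t).submodule := by
  rw [cpt, Projectivization.submodule_mk]; exact Submodule.mem_span_singleton_self _

theorem cpt_inj : (cpt m).Injective := fun s t e => by
  obtain ⟨a, ha⟩ := (Projectivization.mk_eq_mk_iff' ℂ _ _ _ _).mp e
  have h0 := congrFun ha 0
  have h1 := congrFun ha 1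
  simp [cvec] at h0 h1
  simpa [h0] using h1.symm

open Classical in
theorem upC (T : Finset ℂ) (d : ℕ) :
    H2 (T.image (cpt m)) d ≤ min (d + 1) (2 * T.card) + m * min d T.card := by
  set I := ⨅ P ∈ T.image (cpt m), pr P ^ 2
  let q := (Ideal.Quotient.mkₐ ℂ I).toLinearMap
  let g := gg d T.card (X 0) (X 1) fun j : Fin m => (X j.succ.succ : S (m + 1))
  let W := Submodule.span ℂ (Set.range fun i => q (g i))
  let π : Polynomial ℂ := ∏ t ∈ T, (Polynomial.X - Polynomial.C t)
  have πm : π.Monic := Polynomial.monic_prod_of_monic _ _ fun t _ => Polynomial.monic_X_sub_C t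
  have πd : π.natDegree = T.card := Polynomial.natDegree_finsetProd_X_sub_C_eq_card T id
  have mI : ∀ f, (∀ t ∈ T, f ∈ pr (cpt m t) ^ 2) → q f = 0 := fun f hf =>
    Ideal.Quotient.eq_zero_iff_mem.mpr (memI.mpr fun P hP => by
      obtain ⟨t, ht, rfl⟩ := Finset.mem_image.mp hP
      exact hf t ht)
  have mπ : ∀ t ∈ T, hz m T.card π ∈ pr (cpt m t) := fun t ht =>
    mem_pr' (hz_hom _ _) (cvec_ne t) (cmem t) (by
      rw [hz_ev πd.le _ rfl, Polynomial.eval_prod]
      exact Finset.prod_eq_zero ht (by simp [cvec]))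
  have mZ : ∀ t (j : Fin m), (X j.succ.succ : S (m + 1)) ∈ pr (cpt m t) := fun t j =>
    mem_pr' (isHomogeneous_X _ _) (cvec_ne t) (cmem t) (by simp [cvec])
  have le : (R (m + 1) d).map q ≤ W := by
    rintro _ ⟨f, hf, rfl⟩
    rw [f.as_sum, map_sum]
    refine Submodule.sum_mem _ fun s hs => ?_
    have hd := dg hf (mem_support_iff.mp hs)
    rw [Finsupp.degree_eq_sum, Fin.sum_univ_succ, Fin.sum_univ_succ] at hd
    rw [monomial_eq, Finsupp.prod_fintype _ _ (by simp), Fin.prod_univ_succ, Fin.prod_univ_succ,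
      ← smul_eq_C_mul, map_smul]
    refine Submodule.smul_mem _ _ ?_
    simp only [Fin.succ_zero_eq_one] at hd ⊢
    rcases hμ : ∑ j : Fin m, s j.succ.succ with _ | _ | μ
    · rw [Finset.prod_eq_one fun j hj => by rw [Finset.sum_eq_zero_iff.mp hμ j hj, pow_zero], mul_one,
        mul_comm]
      have d2 : (π * π).natDegree = 2 * T.card := by rw [πm.natDegree_mul πm, πd, two_mul]
      obtain ⟨c, r, e⟩ := red (m := m) (π * π) (πm.mul πm) (s 0) (s 1)
      rw [e, map_add, mI (hz m _ _ * r) fun t ht => by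
        rw [d2, two_mul, hz_mul _ _ πd.le πd.le, pow_two]
        exact Ideal.mul_mem_right _ _ (Ideal.mul_mem_mul (mπ t ht) (mπ t ht)), add_zero, map_sum]
      refine Submodule.sum_mem _ fun k _ => ?_
      rw [map_smul]
      have hk := k.2
      refine Submodule.smul_mem _ _ (Submodule.subset_span ⟨.inl ⟨k, by omega⟩, ?_⟩)
      simp only [g, gg]
      rw [show d = s 0 + s 1 by omega]
    · obtain ⟨j, hj⟩ : ∃ j : Fin m, s j.succ.succ ≠ 0 := by
        by_contra hn
        push Not at hn
        simp [hn] at hμ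
      have e1 := Finset.add_sum_erase Finset.univ (fun j : Fin m => s j.succ.succ) (Finset.mem_univ j)
      have e2 : ∑ x ∈ Finset.univ.erase j, s x.succ.succ = 0 := by omega
      have e3 : s j.succ.succ = 1 := by omega
      rw [← Finset.mul_prod_erase _ _ (Finset.mem_univ j), Finset.prod_eq_one fun j hj => by
        rw [Finset.sum_eq_zero_iff.mp e2 j hj, pow_zero], e3, pow_one, mul_one, ← mul_assoc,
        mul_comm, mul_comm (X 0 ^ _)]
      obtain ⟨c, r, e⟩ := red (m := m) π πm (s 0) (s 1)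
      rw [e, mul_add, map_add, mI (_ * (hz m _ _ * r)) fun t ht => by
        rw [πd, ← mul_assoc, pow_two]
        exact Ideal.mul_mem_right _ _ (Ideal.mul_mem_mul (mZ t j) (mπ t ht)), add_zero, Finset.mul_sum,
        map_sum]
      refine Submodule.sum_mem _ fun k _ => ?_
      rw [mul_smul_comm, map_smul]
      have hk := k.2
      refine Submodule.smul_mem _ _ (Submodule.subset_span ⟨.inr (j, ⟨k, by omega⟩), ?_⟩)
      simp only [g, gg]
      rw [show d - 1 = s 0 + s 1 by omega]
    · rw [mI _ fun t ht => Ideal.mul_mem_left _ _ (Ideal.mul_mem_left _ _ ?_)]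
      · exact W.zero_mem
      · refine Ideal.pow_le_pow_right (show 2 ≤ ∑ j : Fin m, s j.succ.succ by omega) ?_
        rw [← Finset.prod_pow_eq_pow_sum]
        exact Ideal.prod_mem_prod fun j _ => Ideal.pow_mem_pow (mZ t j) _
  have : Module.Finite ℂ W := Module.Finite.span_of_finite ℂ (Set.finite_range _)
  refine (Submodule.finrank_mono le).trans ((finrank_range_le_card _).trans ?_)
  simp

end Pool.Agent.H.MP_676d90_ag
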